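import Mathlib

set_option autoImplicit false

namespace Pool.Agent.W182.Frac

/-- finishing step: a colouring of the path `a - e - d` avoiding `h` extends when `h ∉ B`. -/
theorem finB {A B C D E : Finset ℕ} (hB : 3 ≤ B.card) (hC : 3 ≤ C.card)
    {h a e d : ℕ} (hab : h ∉ B)
    (hae : a ≠ e) (hed : e ≠ d) (hha : h ≠ a) (hhe : h ≠ e) (hhd : h ≠ d)
    (ha : a ∈ A) (he : e ∈ E) (hd : d ∈ D) :
    ∃ a ∈ A, ∃ b ∈ B, ∃ c ∈ C, ∃ d ∈ D, ∃ e ∈ E,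
      h ≠ a ∧ h ≠ b ∧ h ≠ c ∧ h ≠ d ∧ h ≠ e ∧ a ≠ b ∧ b ≠ c ∧ c ≠ d ∧ d ≠ e ∧ e ≠ a := by
  obtain ⟨c, hc⟩ : (C \ {h, d}).Nonempty := by
    rw [← Finset.card_pos]
    have h1 : ({h, d} : Finset ℕ).card ≤ 2 := Finset.card_le_two
    have h2 := Finset.le_card_sdiff ({h, d} : Finset ℕ) C
    omega
  obtain ⟨b, hb⟩ : (B \ {a, c}).Nonempty := by
    rw [← Finset.card_pos]
    have h1 : ({a, c} : Finset ℕ).card ≤ 2 := Finset.card_le_two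
    have h2 := Finset.le_card_sdiff ({a, c} : Finset ℕ) B
    omega
  simp only [Finset.mem_sdiff, Finset.mem_insert, Finset.mem_singleton, not_or] at hc hb
  refine ⟨a, ha, b, hb.1, c, hc.1, d, hd, e, he, hha, ?_, ?_, hhd, hhe, ?_, ?_, ?_, ?_, ?_⟩
  · rintro rfl; exact hab hb.1
  · exact fun h' => hc.2.1 h'.symm
  · exact fun h' => hb.2.1 h'.symm
  · exact hb.2.2
  · exact hc.2.2
  · exact hed.symm
  · exact hae.symm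

/-- finishing step: a colouring of the path `a - e - d` avoiding `h` extends when `h ∉ C`. -/
theorem finC {A B C D E : Finset ℕ} (hB : 3 ≤ B.card) (hC : 3 ≤ C.card)
    {h a e d : ℕ} (hab : h ∉ C)
    (hae : a ≠ e) (hed : e ≠ d) (hha : h ≠ a) (hhe : h ≠ e) (hhd : h ≠ d)
    (ha : a ∈ A) (he : e ∈ E) (hd : d ∈ D) :
    ∃ a ∈ A, ∃ b ∈ B, ∃ c ∈ C, ∃ d ∈ D, ∃ e ∈ E,
      h ≠ a ∧ h ≠ b ∧ h ≠ c ∧ h ≠ d ∧ h ≠ e ∧ a ≠ b ∧ b ≠ c ∧ c ≠ d ∧ d ≠ e ∧ e ≠ a := by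
  obtain ⟨b, hb⟩ : (B \ {h, a}).Nonempty := by
    rw [← Finset.card_pos]
    have h1 : ({h, a} : Finset ℕ).card ≤ 2 := Finset.card_le_two
    have h2 := Finset.le_card_sdiff ({h, a} : Finset ℕ) B
    omega
  obtain ⟨c, hc⟩ : (C \ {b, d}).Nonempty := by
    rw [← Finset.card_pos]
    have h1 : ({b, d} : Finset ℕ).card ≤ 2 := Finset.card_le_two
    have h2 := Finset.le_card_sdiff ({b, d} : Finset ℕ) C
    omega
  simp only [Finset.mem_sdiff, Finset.mem_insert, Finset.mem_singleton, not_or] at hc hb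
  refine ⟨a, ha, b, hb.1, c, hc.1, d, hd, e, he, hha, ?_, ?_, hhd, hhe, ?_, ?_, ?_, ?_, ?_⟩
  · exact fun h' => hb.2.1 h'.symm
  · rintro rfl; exact hab hc.1
  · exact fun h' => hb.2.2 h'.symm
  · exact fun h' => hc.2.1 h'.symm
  · exact hc.2.2
  · exact hed.symm
  · exact hae.symm

/-- Structure of the lists on a path `a - e - d` (lists of size two) that cannot be coloured
without using `x`. -/
theorem struct {a₁ a₂ e₁ e₂ d₁ d₂ x : ℕ} (ha : a₁ ≠ a₂) (he : e₁ ≠ e₂) (hd : d₁ ≠ d₂)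
    (hP : ∀ a ∈ ({a₁, a₂} : Finset ℕ), ∀ e ∈ ({e₁, e₂} : Finset ℕ), ∀ d ∈ ({d₁, d₂} : Finset ℕ),
      a ≠ e → e ≠ d → x ≠ a → x ≠ e → x ≠ d → False) :
    ((x = a₁ ∨ x = a₂) ∧ ((a₁ = e₁ ∧ a₂ = e₂) ∨ (a₁ = e₂ ∧ a₂ = e₁))) ∨
    ((x = d₁ ∨ x = d₂) ∧ ((d₁ = e₁ ∧ d₂ = e₂) ∨ (d₁ = e₂ ∧ d₂ = e₁))) ∨
    ((x = a₁ ∨ x = a₂) ∧ (x = d₁ ∨ x = d₂) ∧ x ≠ e₁ ∧ x ≠ e₂) := by
  simp only [Finset.mem_insert, Finset.mem_singleton, forall_eq_or_imp, forall_eq] at hP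
  grind

/-- Case of two adjacent rim lists of size two sharing two colours `x, y`. -/
theorem caseI {H A B C D E : Finset ℕ} (hH : 4 ≤ H.card) (hB : 3 ≤ B.card) (hC : 3 ≤ C.card)
    (hD : 2 ≤ D.card) {x y : ℕ} (hxy : x ≠ y) (hxA : x ∈ A) (hyA : y ∈ A) (hxE : x ∈ E)
    (hyE : y ∈ E) :
    ∃ h ∈ H, ∃ a ∈ A, ∃ b ∈ B, ∃ c ∈ C, ∃ d ∈ D, ∃ e ∈ E,
      h ≠ a ∧ h ≠ b ∧ h ≠ c ∧ h ≠ d ∧ h ≠ e ∧ a ≠ b ∧ b ≠ c ∧ c ≠ d ∧ d ≠ e ∧ e ≠ a := by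
  obtain ⟨u, v, hu, hv, huv⟩ : ∃ u v, u ∈ H \ {x, y} ∧ v ∈ H \ {x, y} ∧ u ≠ v := by
    have h1 : ({x, y} : Finset ℕ).card ≤ 2 := Finset.card_le_two
    have h2 := Finset.le_card_sdiff ({x, y} : Finset ℕ) H
    have h3 : 1 < (H \ {x, y}).card := by omega
    obtain ⟨u, hu, v, hv, huv⟩ := Finset.one_lt_card.mp h3
    exact ⟨u, v, hu, hv, huv⟩
  simp only [Finset.mem_sdiff, Finset.mem_insert, Finset.mem_singleton, not_or] at hu hv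
  -- every colour different from `x` and `y` may be assumed to be in `B ∩ C`
  have key : ∀ w ∈ H, w ≠ x → w ≠ y → (w ∉ B ∨ w ∉ C) →
      ∃ h ∈ H, ∃ a ∈ A, ∃ b ∈ B, ∃ c ∈ C, ∃ d ∈ D, ∃ e ∈ E,
      h ≠ a ∧ h ≠ b ∧ h ≠ c ∧ h ≠ d ∧ h ≠ e ∧ a ≠ b ∧ b ≠ c ∧ c ≠ d ∧ d ≠ e ∧ e ≠ a := by
    intro w hw hwx hwy hwBC
    obtain ⟨d, hd⟩ : (D \ {w}).Nonempty := by
      rw [← Finset.card_pos]
      have h1 : ({w} : Finset ℕ).card = 1 := Finset.card_singleton w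
      have h2 := Finset.le_card_sdiff ({w} : Finset ℕ) D
      omega
    simp only [Finset.mem_sdiff, Finset.mem_singleton] at hd
    obtain ⟨a, e, ha, he, hae, hed, hwa, hwe⟩ : ∃ a e, a ∈ A ∧ e ∈ E ∧ a ≠ e ∧ e ≠ d ∧
        w ≠ a ∧ w ≠ e := by
      by_cases hdx : d = x
      · subst hdx
        exact ⟨d, y, hxA, hyE, hxy, hxy.symm, hwx, hwy⟩
      · exact ⟨y, x, hyA, hxE, hxy.symm, fun h => hdx h.symm, hwy, hwx⟩
    rcases hwBC with hwB | hwC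
    · exact ⟨w, hw, finB hB hC hwB hae hed hwa hwe (fun h => hd.2 h.symm) ha he hd.1⟩
    · exact ⟨w, hw, finC hB hC hwC hae hed hwa hwe (fun h => hd.2 h.symm) ha he hd.1⟩
  by_cases huB : u ∈ B
  swap
  · exact key u hu.1 hu.2.1 hu.2.2 (Or.inl huB)
  by_cases huC : u ∈ C
  swap
  · exact key u hu.1 hu.2.1 hu.2.2 (Or.inr huC)
  by_cases hvB : v ∈ B
  swap
  · exact key v hv.1 hv.2.1 hv.2.2 (Or.inl hvB)
  by_cases hvC : v ∈ C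
  swap
  · exact key v hv.1 hv.2.1 hv.2.2 (Or.inr hvC)
  obtain ⟨c, hc⟩ : (C \ {u, v}).Nonempty := by
    rw [← Finset.card_pos]
    have h1 : ({u, v} : Finset ℕ).card ≤ 2 := Finset.card_le_two
    have h2 := Finset.le_card_sdiff ({u, v} : Finset ℕ) C
    omega
  obtain ⟨b, hb⟩ : (B \ {u, v}).Nonempty := by
    rw [← Finset.card_pos]
    have h1 : ({u, v} : Finset ℕ).card ≤ 2 := Finset.card_le_two
    have h2 := Finset.le_card_sdiff ({u, v} : Finset ℕ) B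
    omega
  simp only [Finset.mem_sdiff, Finset.mem_insert, Finset.mem_singleton, not_or] at hc hb
  by_cases hvD : v ∈ D
  · exact ⟨u, hu.1, x, hxA, v, hvB, c, hc.1, v, hvD, y, hyE, hu.2.1, huv,
      fun h => hc.2.1 h.symm, huv, hu.2.2, fun h => hv.2.1 h.symm, fun h => hc.2.2 h.symm,
      hc.2.2, hv.2.2, hxy.symm⟩
  by_cases huD : u ∈ D
  · exact ⟨v, hv.1, x, hxA, u, huB, c, hc.1, u, huD, y, hyE, hv.2.1, huv.symm,
      fun h => hc.2.2 h.symm, huv.symm, hv.2.2, fun h => hu.2.1 h.symm, fun h => hc.2.1 h.symm,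
      hc.2.1, hu.2.2, hxy.symm⟩
  obtain ⟨a, e, ha, he, hae, hab, hua, hue⟩ : ∃ a e, a ∈ A ∧ e ∈ E ∧ a ≠ e ∧ a ≠ b ∧
      u ≠ a ∧ u ≠ e := by
    by_cases hbx : b = x
    · subst hbx
      exact ⟨y, b, hyA, hxE, hxy.symm, hxy.symm, hu.2.2, hu.2.1⟩
    · exact ⟨x, y, hxA, hyE, hxy, fun h => hbx h.symm, hu.2.1, hu.2.2⟩
  obtain ⟨d, hd⟩ : (D \ {e}).Nonempty := by
    rw [← Finset.card_pos]
    have h1 : ({e} : Finset ℕ).card = 1 := Finset.card_singleton e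
    have h2 := Finset.le_card_sdiff ({e} : Finset ℕ) D
    omega
  simp only [Finset.mem_sdiff, Finset.mem_singleton] at hd
  refine ⟨u, hu.1, a, ha, b, hb.1, v, hvC, d, hd.1, e, he, hua, fun h => hb.2.1 h.symm, huv, ?_,
    hue, hab, hb.2.2, ?_, hd.2, hae.symm⟩
  · rintro rfl; exact huD hd.1
  · rintro rfl; exact hvD hd.1

/-- Case of a colour `x` in both outer lists of the path `a - e - d`, not in the middle one. -/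
theorem caseII {H A B C D E : Finset ℕ} (hH : 4 ≤ H.card) (hB : 3 ≤ B.card) (hC : 3 ≤ C.card)
    {x : ℕ} (hxA : x ∈ A) (hxD : x ∈ D) {e₁ e₂ : ℕ} (he : e₁ ≠ e₂) (he₁ : e₁ ∈ E) (he₂ : e₂ ∈ E)
    (hx₁ : x ≠ e₁) (hx₂ : x ≠ e₂) :
    ∃ h ∈ H, ∃ a ∈ A, ∃ b ∈ B, ∃ c ∈ C, ∃ d ∈ D, ∃ e ∈ E,
      h ≠ a ∧ h ≠ b ∧ h ≠ c ∧ h ≠ d ∧ h ≠ e ∧ a ≠ b ∧ b ≠ c ∧ c ≠ d ∧ d ≠ e ∧ e ≠ a := by
  have hmid : ∀ w : ℕ, ∃ e ∈ E, w ≠ e ∧ x ≠ e := by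
    intro w
    by_cases h : w = e₁
    · exact ⟨e₂, he₂, by rw [h]; exact he, hx₂⟩
    · exact ⟨e₁, he₁, h, hx₁⟩
  by_cases hall : ∀ w ∈ H.erase x, w ∈ B ∧ w ∈ C
  · have h3 : 2 < (H.erase x).card := by
      have := Finset.pred_card_le_card_erase (s := H) (a := x)
      omega
    obtain ⟨u, hu, v, hv, w, hw, huv, huw, hvw⟩ := Finset.two_lt_card.mp h3
    obtain ⟨e, he, hue, hxe⟩ := hmid u
    have hu' := Finset.mem_erase.mp hu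
    have hv' := Finset.mem_erase.mp hv
    have hw' := Finset.mem_erase.mp hw
    exact ⟨u, hu'.2, x, hxA, v, (hall v hv).1, w, (hall w hw).2, x, hxD, e, he, hu'.1, huv,
      huw, hu'.1, hue, fun h => hv'.1 h.symm, hvw, hw'.1, hxe, hxe.symm⟩
  · push Not at hall
    obtain ⟨w, hw, hw2⟩ := hall
    have hw' := Finset.mem_erase.mp hw
    obtain ⟨e, he, hwe, hxe⟩ := hmid w
    by_cases hwB : w ∈ B
    · exact ⟨w, hw'.2, finC hB hC (hw2 hwB) hxe hxe.symm hw'.1 hwe hw'.1 hxA he hxD⟩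
    · exact ⟨w, hw'.2, finB hB hC hwB hxe hxe.symm hw'.1 hwe hw'.1 hxA he hxD⟩

/-- The gadget lemma with `|B| = 3`. -/
theorem wheel3 {H A B C D E : Finset ℕ} (hH : 4 ≤ H.card) (hA : 2 ≤ A.card) (hB3 : B.card = 3)
    (hC : 3 ≤ C.card) (hD : 2 ≤ D.card) (hE : 2 ≤ E.card) :
    ∃ h ∈ H, ∃ a ∈ A, ∃ b ∈ B, ∃ c ∈ C, ∃ d ∈ D, ∃ e ∈ E,
      h ≠ a ∧ h ≠ b ∧ h ≠ c ∧ h ≠ d ∧ h ≠ e ∧ a ≠ b ∧ b ≠ c ∧ c ≠ d ∧ d ≠ e ∧ e ≠ a := by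
  have hB : 3 ≤ B.card := hB3.ge
  obtain ⟨a₁, ha₁, a₂, ha₂, ha⟩ := Finset.one_lt_card.mp (show 1 < A.card by omega)
  obtain ⟨d₁, hd₁, d₂, hd₂, hd⟩ := Finset.one_lt_card.mp (show 1 < D.card by omega)
  obtain ⟨e₁, he₁, e₂, he₂, he⟩ := Finset.one_lt_card.mp (show 1 < E.card by omega)
  have hA' : ∀ z ∈ ({a₁, a₂} : Finset ℕ), z ∈ A := by
    intro z hz; rcases Finset.mem_insert.mp hz with h | h
    · rw [h]; exact ha₁
    · rw [Finset.mem_singleton.mp h]; exact ha₂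
  have hD' : ∀ z ∈ ({d₁, d₂} : Finset ℕ), z ∈ D := by
    intro z hz; rcases Finset.mem_insert.mp hz with h | h
    · rw [h]; exact hd₁
    · rw [Finset.mem_singleton.mp h]; exact hd₂
  have hE' : ∀ z ∈ ({e₁, e₂} : Finset ℕ), z ∈ E := by
    intro z hz; rcases Finset.mem_insert.mp hz with h | h
    · rw [h]; exact he₁
    · rw [Finset.mem_singleton.mp h]; exact he₂
  -- choose a hub colour that is not in the list of `b`, or any other one of the first three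
  by_cases hgood : ∃ x ∈ H, x ∉ B ∧ ∃ a ∈ ({a₁, a₂} : Finset ℕ), ∃ e ∈ ({e₁, e₂} : Finset ℕ),
      ∃ d ∈ ({d₁, d₂} : Finset ℕ), a ≠ e ∧ e ≠ d ∧ x ≠ a ∧ x ≠ e ∧ x ≠ d
  · obtain ⟨x, hxH, hxB, a, haA, e, heE, d, hdD, h1, h2, h3, h4, h5⟩ := hgood
    exact ⟨x, hxH, finB hB hC hxB h1 h2 h3 h4 h5 (hA' a haA) (hE' e heE) (hD' d hdD)⟩
  · by_cases hBH : ∃ x ∈ H, x ∉ B
    · obtain ⟨x, hxH, hxB⟩ := hBH
      have hP : ∀ a ∈ ({a₁, a₂} : Finset ℕ), ∀ e ∈ ({e₁, e₂} : Finset ℕ),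
          ∀ d ∈ ({d₁, d₂} : Finset ℕ), a ≠ e → e ≠ d → x ≠ a → x ≠ e → x ≠ d → False := by
        intro a ha e he d hd h1 h2 h3 h4 h5
        exact hgood ⟨x, hxH, hxB, a, ha, e, he, d, hd, h1, h2, h3, h4, h5⟩
      rcases struct ha he hd hP with ⟨hx, hh⟩ | ⟨hx, hh⟩ | ⟨hx, hx', h1, h2⟩
      · obtain ⟨y, hxy, hyA, hxA, hxE, hyE⟩ : ∃ y, x ≠ y ∧ y ∈ A ∧ x ∈ A ∧ x ∈ E ∧ y ∈ E := by
          rcases hx with rfl | rfl
          · refine ⟨a₂, ha, ha₂, ha₁, ?_, ?_⟩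
            · rcases hh with ⟨h, _⟩ | ⟨h, _⟩ <;> rw [h] <;> assumption
            · rcases hh with ⟨_, h⟩ | ⟨_, h⟩ <;> rw [h] <;> assumption
          · refine ⟨a₁, ha.symm, ha₁, ha₂, ?_, ?_⟩
            · rcases hh with ⟨_, h⟩ | ⟨_, h⟩ <;> rw [h] <;> assumption
            · rcases hh with ⟨h, _⟩ | ⟨h, _⟩ <;> rw [h] <;> assumption
        exact caseI hH hB hC hD hxy hxA hyA hxE hyE
      · obtain ⟨y, hxy, hyA, hxA, hxE, hyE⟩ : ∃ y, x ≠ y ∧ y ∈ D ∧ x ∈ D ∧ x ∈ E ∧ y ∈ E := by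
          rcases hx with rfl | rfl
          · refine ⟨d₂, hd, hd₂, hd₁, ?_, ?_⟩
            · rcases hh with ⟨h, _⟩ | ⟨h, _⟩ <;> rw [h] <;> assumption
            · rcases hh with ⟨_, h⟩ | ⟨_, h⟩ <;> rw [h] <;> assumption
          · refine ⟨d₁, hd.symm, hd₁, hd₂, ?_, ?_⟩
            · rcases hh with ⟨_, h⟩ | ⟨_, h⟩ <;> rw [h] <;> assumption
            · rcases hh with ⟨h, _⟩ | ⟨h, _⟩ <;> rw [h] <;> assumption
        obtain ⟨h, hh, d, hd, c, hc, b, hb, a, ha, e, he, q1, q2, q3, q4, q5, q6, q7, q8, q9,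
          q10⟩ := caseI (B := C) (C := B) (D := A) hH hC hB hA hxy hxA hyA hxE hyE
        exact ⟨h, hh, a, ha, b, hb, c, hc, d, hd, e, he, q4, q3, q2, q1, q5, q8.symm, q7.symm,
          q6.symm, q10.symm, q9.symm⟩
      · have hxA : x ∈ A := by rcases hx with rfl | rfl <;> assumption
        have hxD : x ∈ D := by rcases hx' with rfl | rfl <;> assumption
        exact caseII hH hB hC hxA hxD he he₁ he₂ h1 h2
    · push Not at hBH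
      have := Finset.card_le_card (show H ⊆ B from hBH)
      omega

/-- **The gadget.** The wheel with hub `h` and rim `a b c d e` is colourable from all lists of
sizes at least `4` (hub) and `2, 3, 3, 2, 2` (rim). -/
theorem wheel {H A B C D E : Finset ℕ} (hH : 4 ≤ H.card) (hA : 2 ≤ A.card) (hB : 3 ≤ B.card)
    (hC : 3 ≤ C.card) (hD : 2 ≤ D.card) (hE : 2 ≤ E.card) :
    ∃ h ∈ H, ∃ a ∈ A, ∃ b ∈ B, ∃ c ∈ C, ∃ d ∈ D, ∃ e ∈ E,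
      h ≠ a ∧ h ≠ b ∧ h ≠ c ∧ h ≠ d ∧ h ≠ e ∧ a ≠ b ∧ b ≠ c ∧ c ≠ d ∧ d ≠ e ∧ e ≠ a := by
  obtain ⟨B', hB', hB'3⟩ := Finset.exists_subset_card_eq hB
  obtain ⟨h, hh, a, ha, b, hb, r⟩ := wheel3 (B := B') hH hA hB'3 hC hD hE
  exact ⟨h, hh, a, ha, b, hB' hb, r⟩

end Pool.Agent.W182.Frac
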