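import Mathlib

set_option autoImplicit false

/-!
Graphs of path-width two have unbounded Thue choice number.
-/

namespace Pool.Agent.W182.Thue

open Finset

/-- a walk along a sequence of adjacent vertices -/
def seqWalk {V : Type} (G : SimpleGraph V) : (n : ℕ) → (g : ℕ → V) →
    (∀ j < n, G.Adj (g j) (g (j + 1))) → G.Walk (g 0) (g n)
  | 0, _, _ => SimpleGraph.Walk.nil
  | n + 1, g, h => SimpleGraph.Walk.cons (h 0 (Nat.succ_pos n))
      (seqWalk G n (fun j => g (j + 1)) (fun j hj => h (j + 1) (Nat.succ_lt_succ hj)))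

lemma seqWalk_length {V : Type} (G : SimpleGraph V) : ∀ (n : ℕ) (g : ℕ → V)
    (h : ∀ j < n, G.Adj (g j) (g (j + 1))), (seqWalk G n g h).length = n
  | 0, _, _ => rfl
  | n + 1, g, h => by
      simp only [seqWalk, SimpleGraph.Walk.length_cons]
      rw [seqWalk_length G n]

lemma seqWalk_getVert {V : Type} (G : SimpleGraph V) : ∀ (n : ℕ) (g : ℕ → V)
    (h : ∀ j < n, G.Adj (g j) (g (j + 1))) (i : ℕ), i ≤ n → (seqWalk G n g h).getVert i = g i
  | 0, g, h, i, hi => by
      have : i = 0 := by omega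
      subst this
      simp [seqWalk]
  | n + 1, g, h, i, hi => by
      rcases i with _ | i
      · simp
      · simp only [seqWalk, SimpleGraph.Walk.getVert_cons_succ]
        exact seqWalk_getVert G n _ _ i (by omega)

lemma seqWalk_isPath {V : Type} (G : SimpleGraph V) (n : ℕ) (g : ℕ → V)
    (h : ∀ j < n, G.Adj (g j) (g (j + 1)))
    (hinj : ∀ i ≤ n, ∀ j ≤ n, g i = g j → i = j) : (seqWalk G n g h).IsPath := by
  rw [← SimpleGraph.Walk.IsPath.getVert_injOn_iff]
  intro i hi j hj hij
  rw [Set.mem_ofPred_eq, seqWalk_length] at hi hj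
  rw [seqWalk_getVert G n g h i hi, seqWalk_getVert G n g h j hj] at hij
  exact hinj i hi j hj hij

/-- Counting: a family of cells `(a, k)`, each charged to a pair `(m, i)`. -/
lemma counting (N K c : ℕ) (hc1 : 1 ≤ c) (hN : N = 2 * K) (Φ : Fin N → Finset ℕ) (z : Fin N → ℕ)
    (hz : Function.Injective z) (hΦ : ∀ m, (Φ m).card < c)
    (hK : (c : ℝ) ≤ ∑ i ∈ range K, (1 / ((i : ℝ) + 1)))
    (hhit : ∀ k, 1 ≤ k → k ≤ K → ∀ a, a + 2 * k ≤ N + 1 → 
      ∃ m i : Fin N, z i ∈ Φ m ∧
        ((a ≤ i.1 ∧ i.1 < a + k ∧ m.1 + 1 = i.1 + k) ∨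
         (a ≤ m.1 ∧ m.1 + 1 < a + k ∧ i.1 = m.1 + k))) : False := by
  classical
  -- bad pairs
  let Bad : Finset (Fin N × Fin N) := univ.filter (fun p => z p.2 ∈ Φ p.1)
  let kv : Fin N × Fin N → ℕ := fun p => if p.2.1 ≤ p.1.1 then p.1.1 + 1 - p.2.1 else p.2.1 - p.1.1
  -- size of Bad
  have hBad : Bad.card ≤ N * (c - 1) := by
    have h1 : Bad.card = ∑ m : Fin N, (univ.filter (fun i : Fin N => z i ∈ Φ m)).card := by
      rw [card_eq_sum_card_fiberwise (f := Prod.fst) (t := univ) (fun _ _ => by simp)]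
      apply sum_congr rfl
      intro m _
      apply card_bij (fun p _ => p.2)
      · intro p hp
        simp only [Bad, mem_filter, mem_univ, true_and] at hp ⊢
        rw [← hp.2]; exact hp.1
      · intro p hp q hq h
        simp only [Bad, mem_filter, mem_univ, true_and] at hp hq
        exact Prod.ext (hp.2.trans hq.2.symm) h
      · intro i hi
        simp only [mem_filter, mem_univ, true_and] at hi
        exact ⟨(m, i), by simp [Bad, hi], rfl⟩
    rw [h1]
    have h2 : ∀ m ∈ (univ : Finset (Fin N)),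
        (univ.filter (fun i : Fin N => z i ∈ Φ m)).card ≤ c - 1 := by
      intro m _
      have h3 : (univ.filter (fun i : Fin N => z i ∈ Φ m)).card ≤ (Φ m).card := by
        apply card_le_card_of_injOn z
        · intro i hi
          simp only [coe_filter, mem_univ, true_and, Set.mem_ofPred_eq] at hi
          exact hi
        · exact hz.injOn
      have := hΦ m
      omega
    refine (sum_le_sum h2).trans ?_
    simp
  -- for each k
  have hk : ∀ k, 1 ≤ k → k ≤ K → N + 2 - 2 * k ≤ k * (Bad.filter (fun p => kv p = k)).card := by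
    intro k hk1 hkK
    have hex : ∀ a ∈ range (N + 2 - 2 * k), ∃ p : Fin N × Fin N, p ∈ Bad.filter (fun p => kv p = k) ∧
        (min p.1.1 p.2.1 < a + k ∧ a ≤ min p.1.1 p.2.1) := by
      intro a ha
      rw [mem_range] at ha
      obtain ⟨m, i, hmi, h⟩ := hhit k hk1 hkK a (by omega)
      refine ⟨(m, i), ?_, ?_⟩
      · simp only [mem_filter, Bad, mem_univ, true_and]
        refine ⟨hmi, ?_⟩
        simp only [kv]
        rcases h with ⟨h1, h2, h3⟩ | ⟨h1, h2, h3⟩
        · rw [if_pos (by omega)]; omega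
        · rw [if_neg (by omega)]; omega
      · simp only
        rcases h with ⟨h1, h2, h3⟩ | ⟨h1, h2, h3⟩ <;> omega
    choose φ hφ1 hφ2 using hex
    have h4 : (range (N + 2 - 2 * k)).attach.card ≤
        k * (Bad.filter (fun p => kv p = k)).card := by
      apply card_le_mul_card_image_of_maps_to (f := fun a => φ a.1 a.2)
        (fun a _ => hφ1 a.1 a.2)
      intro p hp
      have h5 : ((range (N + 2 - 2 * k)).attach.filter (fun a => φ a.1 a.2 = p)).card ≤
          (Finset.Icc (min p.1.1 p.2.1 + 1 - k) (min p.1.1 p.2.1)).card := by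
        apply card_le_card_of_injOn (fun a => a.1)
        · intro a ha
          rw [coe_filter, Set.mem_ofPred_eq] at ha
          have := hφ2 a.1 a.2
          rw [ha.2] at this
          show a.1 ∈ (Finset.Icc (min p.1.1 p.2.1 + 1 - k) (min p.1.1 p.2.1) : Set ℕ)
          rw [coe_Icc, Set.mem_Icc]
          omega
        · intro a _ b _ h
          exact Subtype.ext h
      rw [Nat.card_Icc] at h5
      omega
    rw [card_attach, card_range] at h4
    exact h4
  -- sum over k
  have hsum : ∑ k ∈ range K, (Bad.filter (fun p => kv p = k + 1)).card ≤ Bad.card := by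
    rw [← card_biUnion]
    · exact card_le_card (by
        intro p hp
        rw [mem_biUnion] at hp
        obtain ⟨k, -, hp⟩ := hp
        exact (mem_filter.mp hp).1)
    · intro x _ y _ hxy
      rw [Function.onFun, disjoint_left]
      intro p hp hq
      have h1 := (mem_filter.mp hp).2
      have h2 := (mem_filter.mp hq).2
      omega
  have hreal : ∀ k ∈ range K, ((N : ℝ) + 2) * (1 / ((k : ℝ) + 1)) - 2 ≤
      ((Bad.filter (fun p => kv p = k + 1)).card : ℝ) := by
    intro k hkK
    rw [mem_range] at hkK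
    have h1 := hk (k + 1) (by omega) (by omega)
    have h2 : N + 2 ≤ (k + 1) * (Bad.filter (fun p => kv p = k + 1)).card + 2 * (k + 1) := by omega
    have h3 : (N : ℝ) + 2 ≤ ((k : ℝ) + 1) * ((Bad.filter (fun p => kv p = k + 1)).card : ℝ) +
        2 * ((k : ℝ) + 1) := by exact_mod_cast h2
    have h4 : (0 : ℝ) < (k : ℝ) + 1 := by positivity
    rw [mul_one_div, sub_le_iff_le_add, div_le_iff₀ h4]
    linarith
  have hfin := sum_le_sum hreal
  rw [sum_sub_distrib, ← mul_sum, sum_const, card_range, nsmul_eq_mul] at hfin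
  have hfin2 : (∑ k ∈ range K, ((Bad.filter (fun p => kv p = k + 1)).card : ℝ)) ≤
      (N : ℝ) * ((c : ℝ) - 1) := by
    have h1 : ∑ k ∈ range K, (Bad.filter (fun p => kv p = k + 1)).card ≤ N * (c - 1) :=
      hsum.trans hBad
    have h2 : ((∑ k ∈ range K, (Bad.filter (fun p => kv p = k + 1)).card : ℕ) : ℝ) ≤
        ((N * (c - 1) : ℕ) : ℝ) := by exact_mod_cast h1
    push_cast [Nat.cast_sub hc1] at h2
    exact h2
  have hNr : (N : ℝ) = 2 * K := by rw [hN]; push_cast; ring
  have hN2 : (0 : ℝ) ≤ (N : ℝ) := by positivity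
  have h7 : ((N : ℝ) + 2) * (c : ℝ) ≤ ((N : ℝ) + 2) * ∑ i ∈ range K, (1 / ((i : ℝ) + 1)) :=
    mul_le_mul_of_nonneg_left hK (by linarith)
  have h8 : (c : ℝ) ≤ 0 := by nlinarith
  have h9 : c = 0 := by
    have : (c : ℝ) = 0 := le_antisymm h8 (by positivity)
    exact_mod_cast this
  omega

end Pool.Agent.W182.Thue
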