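import Pool.Agent.W182.Thue

set_option autoImplicit false

/-!
The graph: a path `v_0, v_1, ...`; for every gap `m` and every `c`-subset `Λ` of the palette a vertex
`y_{m,Λ}` adjacent to `v_m` and `v_{m+1}`.
-/

namespace Pool.Agent.W182.Thue

open Finset

/-- the `c`-subsets of the palette -/
abbrev Lam (N c : ℕ) : Type := ↥(Finset.powersetCard c (Finset.range (c * N)))

/-- the vertices -/
abbrev Vx (N c : ℕ) : Type := Fin N ⊕ (Fin N × Lam N c)

/-- adjacency -/
def adj {N c : ℕ} : Vx N c → Vx N c → Prop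
  | Sum.inl i, Sum.inr p => i.1 = p.1.1 ∨ i.1 = p.1.1 + 1
  | Sum.inr p, Sum.inl i => i.1 = p.1.1 ∨ i.1 = p.1.1 + 1
  | _, _ => False

/-- the graph -/
def Gr (N c : ℕ) : SimpleGraph (Vx N c) where
  Adj := adj
  symm := ⟨fun x y h => by
    rcases x with i | p <;> rcases y with j | q <;> simp_all [adj]⟩
  loopless := ⟨fun x h => by rcases x with i | p <;> simp_all [adj]⟩

/-- membership in the bags -/
def inBag {N c : ℕ} (T : ℕ) (e : Lam N c → ℕ) (n : ℕ) : Vx N c → Prop
  | Sum.inl i => i.1 = n / T ∨ i.1 = n / T + 1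
  | Sum.inr p => p.1.1 = n / T ∧ e p.2 = n % T

lemma bags (N c : ℕ) (hc : 1 ≤ c) (hN : 1 ≤ N) : ∃ B : ℕ → Finset (Vx N c),
    (∀ i, (B i).card ≤ 3) ∧
    (∀ v : Vx N c, ∃ i, v ∈ B i) ∧
    (∀ u v : Vx N c, (Gr N c).Adj u v → ∃ i, u ∈ B i ∧ v ∈ B i) ∧
    (∀ (v : Vx N c) (i j k : ℕ), i ≤ j → j ≤ k → v ∈ B i → v ∈ B k → v ∈ B j) := by
  classical
  let T := Fintype.card (Lam N c)
  have hT : 0 < T := by
    apply Fintype.card_pos_iff.mpr
    refine ⟨⟨Finset.range c, ?_⟩⟩
    rw [mem_powersetCard]
    refine ⟨?_, card_range c⟩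
    intro x hx
    rw [mem_range] at hx ⊢
    exact lt_of_lt_of_le hx (Nat.le_mul_of_pos_right c hN)
  let e0 : Lam N c ≃ Fin T := Fintype.equivFin (Lam N c)
  let e : Lam N c → ℕ := fun x => (e0 x).1
  have he : ∀ x, e x < T := fun x => (e0 x).2
  have hinj : ∀ x y, e x = e y → x = y := fun x y h => e0.injective (Fin.ext h)
  have hdiv : ∀ m t, t < T → (m * T + t) / T = m := fun m t ht => by
    rw [Nat.mul_comm, Nat.mul_add_div hT, Nat.div_eq_of_lt ht, Nat.add_zero]
  have hmod : ∀ m t, t < T → (m * T + t) % T = t := fun m t ht => by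
    rw [Nat.mul_add_mod', Nat.mod_eq_of_lt ht]
  refine ⟨fun n => univ.filter (fun x => inBag T e n x), ?_, ?_, ?_, ?_⟩
  · intro n
    have h : (univ.filter (fun x : Vx N c => inBag T e n x)).card ≤ (Finset.range 3).card := by
      apply card_le_card_of_injOn
        (fun x => Sum.elim (fun i : Fin N => i.1 - n / T) (fun _ => 2) x)
      · intro x hx
        rw [coe_filter, Set.mem_ofPred_eq] at hx
        show _ ∈ (Finset.range 3 : Set ℕ)
        rw [coe_range, Set.mem_Iio]
        rcases x with i | p
        · simp only [inBag] at hx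
          simp only [Sum.elim_inl]
          omega
        · simp
      · intro x hx y hy hxy
        rw [coe_filter, Set.mem_ofPred_eq] at hx hy
        rcases x with i | p <;> rcases y with j | q
        · simp only [inBag, mem_univ, true_and] at hx hy
          simp only [Sum.elim_inl] at hxy
          congr 1
          apply Fin.ext
          omega
        · simp only [inBag, mem_univ, true_and] at hx hy
          simp only [Sum.elim_inl, Sum.elim_inr] at hxy
          omega
        · simp only [inBag, mem_univ, true_and] at hx hy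
          simp only [Sum.elim_inl, Sum.elim_inr] at hxy
          omega
        · simp only [inBag, mem_univ, true_and] at hx hy
          congr 1
          refine Prod.ext (Fin.ext ?_) (hinj _ _ ?_)
          · omega
          · omega
    simpa using h
  · intro v
    rcases v with i | p
    · refine ⟨i.1 * T + 0, ?_⟩
      refine mem_filter.mpr ⟨mem_univ _, ?_⟩
      exact Or.inl (hdiv i.1 0 hT).symm
    · refine ⟨p.1.1 * T + e p.2, ?_⟩
      refine mem_filter.mpr ⟨mem_univ _, ?_⟩
      exact ⟨(hdiv _ _ (he _)).symm, (hmod _ _ (he _)).symm⟩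
  · intro u v huv
    have key : ∀ (i : Fin N) (p : Fin N × Lam N c), (i.1 = p.1.1 ∨ i.1 = p.1.1 + 1) →
        inBag T e (p.1.1 * T + e p.2) (Sum.inl i : Vx N c) ∧
        inBag T e (p.1.1 * T + e p.2) (Sum.inr p : Vx N c) := by
      intro i p h
      simp only [inBag]
      rw [hdiv _ _ (he _), hmod _ _ (he _)]
      exact ⟨h, rfl, rfl⟩
    rcases u with i | p <;> rcases v with j | q
    · exact absurd huv (by simp [Gr, adj])
    · have := key i q huv
      exact ⟨_, by simp only [mem_filter, mem_univ, true_and]; exact this.1,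
        by simp only [mem_filter, mem_univ, true_and]; exact this.2⟩
    · have := key j p huv
      exact ⟨_, by simp only [mem_filter, mem_univ, true_and]; exact this.2,
        by simp only [mem_filter, mem_univ, true_and]; exact this.1⟩
    · exact absurd huv (by simp [Gr, adj])
  · intro v i j k hij hjk hi hk
    simp only [mem_filter, mem_univ, true_and] at hi hk ⊢
    have h1 : i / T ≤ j / T := Nat.div_le_div_right hij
    have h2 : j / T ≤ k / T := Nat.div_le_div_right hjk
    rcases v with a | p
    · simp only [inBag] at hi hk ⊢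
      omega
    · simp only [inBag] at hi hk ⊢
      have h3 : i = k := by
        rw [← Nat.div_add_mod i T, ← Nat.div_add_mod k T, ← hi.1, ← hk.1, ← hi.2, ← hk.2]
      have h4 : j = i := by omega
      rw [h4]
      exact hi

/-- the vertices of the repetitive path -/
def pathV {N c : ℕ} (a : ℕ) (v : ℕ → Fin N) (y : ℕ → Lam N c) (j : ℕ) : Vx N c :=
  if j % 2 = 0 then Sum.inl (v (a + j / 2)) else Sum.inr (v (a + j / 2), y (a + j / 2))

/-- main -/
theorem no_colouring (N K c : ℕ) (hc1 : 1 ≤ c) (hK1 : 1 ≤ K) (hN : N = 2 * K)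
    (hK : (c : ℝ) ≤ ∑ i ∈ range K, (1 / ((i : ℝ) + 1)))
    (f : Vx N c → ℕ) (hf1 : ∀ i : Fin N, f (Sum.inl i) ∈ Finset.Ico (i.1 * c) (i.1 * c + c))
    (hf2 : ∀ p : Fin N × Lam N c, f (Sum.inr p) ∈ p.2.1)
    (hrep : ∀ (u w : Vx N c) (p : (Gr N c).Walk u w), p.IsPath →
            ∀ k : ℕ, 1 ≤ k → p.length + 1 = 2 * k →
              ¬ (∀ i : ℕ, i < k → f (p.getVert i) = f (p.getVert (i + k)))) : False := by
  classical
  have hN0 : 0 < N := by omega
  let z : Fin N → ℕ := fun i => f (Sum.inl i)
  have hzmem : ∀ i : Fin N, i.1 * c ≤ z i ∧ z i < i.1 * c + c := fun i => by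
    have := hf1 i
    rw [mem_Ico] at this
    exact this
  have hz : Function.Injective z := by
    intro i j hij
    have h1 : z i / c = i.1 := by
      have := hzmem i
      apply Nat.div_eq_of_lt_le
      · exact this.1
      · rw [Nat.succ_mul]; exact this.2
    have h2 : z j / c = j.1 := by
      have := hzmem j
      apply Nat.div_eq_of_lt_le
      · exact this.1
      · rw [Nat.succ_mul]; exact this.2
    apply Fin.ext
    rw [← h1, ← h2, hij]
  have hzpal : ∀ i : Fin N, z i ∈ Finset.range (c * N) := fun i => by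
    rw [mem_range]
    have := hzmem i
    have h3 : (i.1 + 1) * c ≤ N * c := Nat.mul_le_mul_right c i.2
    rw [Nat.succ_mul] at h3
    rw [Nat.mul_comm c N]
    omega
  let Φ : Fin N → Finset ℕ := fun m =>
    (Finset.range (c * N)).filter (fun x => ∀ Λ : Lam N c, f (Sum.inr (m, Λ)) ≠ x)
  have hΦ : ∀ m, (Φ m).card < c := by
    intro m
    by_contra h
    push Not at h
    obtain ⟨Λ, hΛ1, hΛ2⟩ := exists_subset_card_eq h
    have h4 : Λ ∈ Finset.powersetCard c (Finset.range (c * N)) := by
      rw [mem_powersetCard]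
      exact ⟨hΛ1.trans (filter_subset _ _), hΛ2⟩
    have h5 := hf2 (m, ⟨Λ, h4⟩)
    have h6 := (mem_filter.mp (hΛ1 h5)).2 ⟨Λ, h4⟩
    exact h6 rfl
  -- availability
  have hav : ∀ (m i : Fin N), z i ∉ Φ m → ∃ Λ : Lam N c, f (Sum.inr (m, Λ)) = z i := by
    intro m i h
    by_contra h'
    push Not at h'
    exact h (mem_filter.mpr ⟨hzpal i, h'⟩)
  refine counting N K c hc1 hN Φ z hz hΦ hK ?_
  intro k hk1 hkK a ha
  by_contra hno
  push Not at hno
  -- vertices as functions of a natural number
  let v : ℕ → Fin N := fun t => ⟨t % N, Nat.mod_lt _ hN0⟩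
  have hv : ∀ t, t < N → (v t).1 = t := fun t ht => Nat.mod_eq_of_lt ht
  -- the target colour in gap m
  let tgt : ℕ → ℕ := fun m => if m + 1 < a + k then m + k else m + 1 - k
  have htgt : ∀ m, a ≤ m → m + 1 < a + 2 * k → tgt m < N := by
    intro m h1 h2
    simp only [tgt]
    split_ifs <;> omega
  have hex : ∀ m, ∃ Λ : Lam N c, a ≤ m → m + 1 < a + 2 * k →
      f (Sum.inr (v m, Λ)) = z (v (tgt m)) := by
    intro m
    by_cases h : a ≤ m ∧ m + 1 < a + 2 * k
    · have hm : m < N := by omega
      have h7 : z (v (tgt m)) ∉ Φ (v m) := by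
        intro hcon
        have h8 := hno (v m) (v (tgt m)) hcon
        rw [hv m hm, hv _ (htgt m h.1 h.2)] at h8
        simp only [tgt] at h8
        by_cases h9 : m + 1 < a + k
        · rw [if_pos h9] at h8
          exact h8.2 h.1 h9 rfl
        · rw [if_neg h9] at h8
          exact h8.1 (by omega) (by omega) (by omega)
      obtain ⟨Λ, hΛ⟩ := hav _ _ h7
      exact ⟨Λ, fun _ _ => hΛ⟩
    · have : Nonempty (Lam N c) := by
        refine ⟨⟨Finset.range c, ?_⟩⟩
        rw [mem_powersetCard]
        refine ⟨?_, card_range c⟩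
        intro x hx
        rw [mem_range] at hx ⊢
        exact lt_of_lt_of_le hx (Nat.le_mul_of_pos_right c hN0)
      exact ⟨this.some, fun h1 h2 => absurd ⟨h1, h2⟩ h⟩
  choose y hy using hex
  -- the path
  let g : ℕ → Vx N c := pathV a v y
  have hadj : ∀ j < 4 * k - 3, (Gr N c).Adj (g j) (g (j + 1)) := by
    intro j hj
    simp only [g, pathV]
    rcases Nat.even_or_odd' j with ⟨t, rfl | rfl⟩
    · rw [if_pos (by omega), if_neg (by omega)]
      have e1 : 2 * t / 2 = t := by omega
      have e2 : (2 * t + 1) / 2 = t := by omega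
      rw [e1, e2]
      show _ ∨ _
      left; rfl
    · rw [if_neg (by omega), if_pos (by omega)]
      have e1 : (2 * t + 1) / 2 = t := by omega
      have e2 : (2 * t + 1 + 1) / 2 = t + 1 := by omega
      rw [e1, e2]
      show _ ∨ _
      right
      rw [hv _ (by omega), hv _ (by omega)]
      rfl
  have hinj : ∀ i ≤ 4 * k - 3, ∀ j ≤ 4 * k - 3, g i = g j → i = j := by
    intro i hi j hj hij
    simp only [g, pathV] at hij
    by_cases h1 : i % 2 = 0 <;> by_cases h2 : j % 2 = 0
    · rw [if_pos h1, if_pos h2] at hij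
      have h3 := congrArg Fin.val (Sum.inl.inj hij)
      rw [hv _ (by omega), hv _ (by omega)] at h3
      omega
    · rw [if_pos h1, if_neg h2] at hij
      exact absurd hij (by simp)
    · rw [if_neg h1, if_pos h2] at hij
      exact absurd hij (by simp)
    · rw [if_neg h1, if_neg h2] at hij
      have h3 := congrArg Fin.val (congrArg Prod.fst (Sum.inr.inj hij))
      simp only at h3
      rw [hv _ (by omega), hv _ (by omega)] at h3
      omega
  refine hrep _ _ (seqWalk (Gr N c) (4 * k - 3) g hadj) (seqWalk_isPath _ _ _ _ hinj)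
    (2 * k - 1) (by omega) (by rw [seqWalk_length]; omega) ?_
  intro i hi
  rw [seqWalk_getVert _ _ _ _ _ (by omega), seqWalk_getVert _ _ _ _ _ (by omega)]
  simp only [g, pathV]
  rcases Nat.even_or_odd' i with ⟨t, rfl | rfl⟩
  · -- `v_{a+t}` against the vertex in the gap `a + t + k - 1`
    rw [if_pos (by omega), if_neg (by omega)]
    have e1 : 2 * t / 2 = t := by omega
    have e2 : (2 * t + (2 * k - 1)) / 2 = t + k - 1 := by omega
    rw [e1, e2, hy _ (by omega) (by omega)]
    have e3 : tgt (a + (t + k - 1)) = a + t := by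
      simp only [tgt]
      rw [if_neg (by omega)]
      omega
    rw [e3]
  · rw [if_neg (by omega), if_pos (by omega)]
    have e1 : (2 * t + 1) / 2 = t := by omega
    have e2 : (2 * t + 1 + (2 * k - 1)) / 2 = t + k := by omega
    rw [e1, e2, hy _ (by omega) (by omega)]
    have e3 : tgt (a + t) = a + (t + k) := by
      simp only [tgt]
      rw [if_pos (by omega)]
      omega
    rw [e3]

end Pool.Agent.W182.Thue
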